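import Pool.Agent.R795.BC.Defs

/-!
# The action of `ℤ` on `S¹ × ℝ`
-/

set_option autoImplicit false

namespace Pool.Agent.R795.BC

/-- The infinite cyclic group, written multiplicatively. -/
abbrev GG : Type := Multiplicative ℤ

/-- The real line, with the action of the infinite cyclic group by translations. -/
def EE : Type := ℝ

/-- The space `S¹ × ℝ`, where `S¹ = ℝ/ℤ`, with the action `n · (z, t) = ((-1)^n z, t + n)`. -/
def XX : Type := UnitAddCircle × ℝ

noncomputable instance : TopologicalSpace EE := inferInstanceAs (TopologicalSpace ℝ)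

noncomputable instance : TopologicalSpace XX :=
  inferInstanceAs (TopologicalSpace (UnitAddCircle × ℝ))

/-- The translation by `n`. -/
noncomputable def transl (n : ℤ) (s : ℝ) : ℝ := s + n

theorem transl_zero (s : ℝ) : transl 0 s = s := by
  simp [transl]

theorem transl_add (m n : ℤ) (s : ℝ) : transl (m + n) s = transl m (transl n s) := by
  unfold transl
  push_cast
  ring

/-- The sign `(-1)^n` as an integer. -/
def sgn (n : ℤ) : ℤ := ((n.negOnePow : ℤˣ) : ℤ)

theorem sgn_zero : sgn 0 = 1 := by
  simp [sgn]

theorem sgn_add (m n : ℤ) : sgn (m + n) = sgn m * sgn n := by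
  unfold sgn
  rw [Int.negOnePow_add]
  push_cast
  rfl

theorem sgn_mul_self (n : ℤ) : sgn n * sgn n = 1 := by
  rw [← sgn_add]
  unfold sgn
  rw [Int.negOnePow_even _ ⟨n, rfl⟩]
  simp

noncomputable instance : MulAction GG EE where
  smul g s := transl g.toAdd s
  one_smul s := transl_zero s
  mul_smul g h s := transl_add g.toAdd h.toAdd s

/-- The action on `XX`. -/
noncomputable def act (n : ℤ) (x : UnitAddCircle × ℝ) : UnitAddCircle × ℝ :=
  (sgn n • x.1, transl n x.2)

theorem act_zero (x : UnitAddCircle × ℝ) : act 0 x = x := by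
  unfold act
  rw [sgn_zero, one_smul, transl_zero]

theorem act_add (m n : ℤ) (x : UnitAddCircle × ℝ) : act (m + n) x = act m (act n x) := by
  unfold act
  rw [sgn_add, transl_add, mul_smul]

noncomputable instance : MulAction GG XX where
  smul g x := act g.toAdd x
  one_smul x := act_zero x
  mul_smul g h x := act_add g.toAdd h.toAdd x

end Pool.Agent.R795.BC
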