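import Pool.Agent.R795.BC.Lift
import Pool.Agent.R795.BC.Example

/-!
# The cocycle
-/

set_option autoImplicit false

namespace Pool.Agent.R795.BC

open Topology

/-- The angular coordinate. -/
def ang (x : XX) : UnitAddCircle := x.1

/-- The height. -/
def ht (x : XX) : ℝ := x.2

/-- The point with given coordinates. -/
def pt (z : UnitAddCircle) (t : ℝ) : XX := (z, t)

theorem ang_smul (g : GG) (x : XX) : ang (g • x) = sgn g.toAdd • ang x := rfl

theorem ht_smul (g : GG) (x : XX) : ht (g • x) = ht x + (g.toAdd : ℤ) := rfl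

theorem XX_ext {x y : XX} (h1 : ang x = ang y) (h2 : ht x = ht y) : x = y := Prod.ext h1 h2

theorem continuous_ang : Continuous ang := continuous_fst

theorem continuous_ht : Continuous ht := continuous_snd

theorem continuous_pt : Continuous fun u : UnitAddCircle × ℝ => pt u.1 u.2 := continuous_id

theorem continuous_smul_EE (g : GG) : Continuous fun e : EE => g • e := by
  change Continuous fun s : ℝ => s + (g.toAdd : ℤ)
  fun_prop

theorem continuous_smul_XX (g : GG) : Continuous fun x : XX => g • x := by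
  change Continuous fun x : UnitAddCircle × ℝ => (sgn g.toAdd • x.1, x.2 + (g.toAdd : ℤ))
  fun_prop

theorem continuous_smul_XX2 (g : GG) : Continuous fun x : XX × XX => g • x :=
  ((continuous_smul_XX g).comp continuous_fst).prodMk
    ((continuous_smul_XX g).comp continuous_snd)

theorem exists_nhd (e : ℝ) : ∃ U : Set ℝ, IsOpen U ∧ e ∈ U ∧
    ∀ n : ℤ, n ≠ 0 → ∀ u ∈ U, u + n ∉ U := by
  refine ⟨Set.Ioo (e - 1 / 2) (e + 1 / 2), isOpen_Ioo, ⟨by linarith, by linarith⟩, ?_⟩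
  rintro n hn u ⟨hu1, hu2⟩ ⟨h1, h2⟩
  have h3 : ((n : ℤ) : ℝ) < 1 := by linarith
  have h4 : (-1 : ℝ) < ((n : ℤ) : ℝ) := by linarith
  have h5 : n < 1 := by exact_mod_cast h3
  have h6 : (-1 : ℤ) < n := by exact_mod_cast h4
  omega

theorem isEG : IsEG GG EE := by
  refine ⟨inferInstanceAs (ContractibleSpace ℝ), continuous_smul_EE, fun e => ?_⟩
  obtain ⟨U, hU, he, h⟩ := exists_nhd e
  exact ⟨U, hU, he, fun g hg u hu => h g.toAdd
    (fun h0 => hg (Multiplicative.toAdd.injective h0)) u hu⟩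

/-- The label function. -/
noncomputable def eps (θ t : ℝ) : ZMod 2 := (⌊((sgn ⌊t⌋ : ℤ) : ℝ) * θ⌋ : ℤ)

theorem eps_zero (t : ℝ) : eps 0 t = 0 := by
  simp [eps]

theorem sgn_zmod (n : ℤ) : ((sgn n : ℤ) : ZMod 2) = 1 := by
  unfold sgn
  rcases Int.units_eq_one_or n.negOnePow with h | h <;> rw [h]
  · rfl
  · decide

theorem eps_act (θ t : ℝ) (n m : ℤ) :
    eps ((sgn n : ℤ) * θ + m) (t + n) = eps θ t + m := by
  unfold eps
  have h1 : ((sgn ⌊t + n⌋ : ℤ) : ℝ) * ((sgn n : ℤ) * θ + m) =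
      ((sgn ⌊t⌋ : ℤ) : ℝ) * θ + ((sgn (⌊t⌋ + n) * m : ℤ) : ℝ) := by
    rw [Int.floor_add_intCast, sgn_add]
    have h2 : ((sgn n : ℤ) : ℝ) * (sgn n : ℤ) = 1 := by
      exact_mod_cast sgn_mul_self n
    push_cast
    linear_combination ((sgn ⌊t⌋ : ℤ) : ℝ) * θ * h2
  rw [h1, Int.floor_add_intCast]
  push_cast
  rw [sgn_zmod, one_mul]

/-- The homotopy orbit space of `XX × XX`. -/
abbrev BB : Type := HOrb GG EE (XX × XX)

/-- A lift of a singular simplex of `BB` to `EE × XX × XX`, together with a lift of the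
difference of the angular coordinates to `ℝ`. -/
structure FullLift {n : ℕ} (σ : Simp BB n) where
  /-- the lift -/
  F : Simp (EE × (XX × XX)) n
  /-- the lift of the difference of the angular coordinates -/
  θ : C(stdSimplex ℝ (Fin (n + 1)), ℝ)
  hF : ∀ v, quo GG EE (XX × XX) (F v) = σ v
  hθ : ∀ v, ((θ v : ℝ) : UnitAddCircle) = ang (F v).2.1 - ang (F v).2.2

/-- The label of a point. -/
noncomputable def FullLift.L {n : ℕ} {σ : Simp BB n} (P : FullLift σ)
    (v : stdSimplex ℝ (Fin (n + 1))) : ZMod 2 := eps (P.θ v) (ht (P.F v).2.1)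

theorem exists_fullLift {n : ℕ} (σ : Simp BB n) : Nonempty (FullLift σ) := by
  obtain ⟨F, hF⟩ := exists_lift isEG continuous_smul_XX2 σ
  let w : C(stdSimplex ℝ (Fin (n + 1)), UnitAddCircle) :=
    ⟨fun v => ang (F v).2.1 - ang (F v).2.2, by
      have h1 := continuous_ang
      have h2 := F.continuous
      fun_prop⟩
  obtain ⟨e, he⟩ := QuotientAddGroup.mk_surjective (w (vtx 0))
  obtain ⟨θ, ⟨-, hθ⟩, -⟩ := (AddCircle.isCoveringMap_coe (1 : ℝ)).existsUnique_continuousMap_lifts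
    w (vtx 0) e he
  exact ⟨⟨F, θ, hF, fun v => congrFun hθ v⟩⟩

theorem FullLift.compare {n : ℕ} {σ : Simp BB n} (P P' : FullLift σ) :
    ∃ m : ZMod 2, ∀ v, P'.L v = P.L v + m := by
  obtain ⟨g, hg⟩ := lift_unique isEG continuous_smul_XX2 P.F P'.F
    (by
      intro v
      rw [P.hF, P'.hF])
  -- the lifts of the difference of the angles
  have hθ : ∀ v, ((P'.θ v : ℝ) : UnitAddCircle) =
      (((sgn g.toAdd : ℤ) * P.θ v : ℝ) : UnitAddCircle) := by
    intro v
    rw [P'.hθ, hg v]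
    change sgn g.toAdd • ang (P.F v).2.1 - sgn g.toAdd • ang (P.F v).2.2 = _
    rw [← smul_sub, ← P.hθ, ← AddCircle.coe_zsmul, zsmul_eq_mul]
  obtain ⟨m, hm⟩ : ∃ m : ℤ, (sgn g.toAdd : ℤ) * P.θ (vtx 0) + m = P'.θ (vtx 0) := by
    have h1 : ((P'.θ (vtx 0) - (sgn g.toAdd : ℤ) * P.θ (vtx 0) : ℝ) : UnitAddCircle) = 0 := by
      rw [AddCircle.coe_sub, hθ, sub_self]
    obtain ⟨m, hm⟩ := (AddCircle.coe_eq_zero_iff (1 : ℝ)).1 h1
    refine ⟨m, ?_⟩
    rw [zsmul_eq_mul, mul_one] at hm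
    rw [hm]
    ring
  have hall : (P'.θ : stdSimplex ℝ (Fin (n + 1)) → ℝ) =
      fun v => (sgn g.toAdd : ℤ) * P.θ v + m := by
    apply (AddCircle.isCoveringMap_coe (1 : ℝ)).eq_of_comp_eq P'.θ.continuous
      (by fun_prop) ?_ (vtx 0) hm.symm
    ext v
    change ((P'.θ v : ℝ) : UnitAddCircle) =
      (((sgn g.toAdd : ℤ) * P.θ v + m : ℝ) : UnitAddCircle)
    rw [AddCircle.coe_add, hθ]
    have h2 : ((m : ℝ) : UnitAddCircle) = 0 :=
      (AddCircle.coe_eq_zero_iff (1 : ℝ)).2 ⟨m, by simp⟩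
    rw [h2, add_zero]
  refine ⟨m, fun v => ?_⟩
  unfold FullLift.L
  rw [hall, hg v]
  exact eps_act _ _ _ _

/-- The restriction of a lift to a face. -/
noncomputable def FullLift.sub {m n : ℕ} {σ : Simp BB n} (P : FullLift σ)
    (f : Fin (m + 1) → Fin (n + 1)) : FullLift (σ.sub f) where
  F := P.F.comp (simplexMap f)
  θ := P.θ.comp (simplexMap f)
  hF _ := P.hF _
  hθ _ := P.hθ _

/-- The cocycle. -/
noncomputable def cc : Cochain BB 1 :=
  fun σ => (exists_fullLift σ).some.L (vtx 1) + (exists_fullLift σ).some.L (vtx 0)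

theorem cc_eq {σ : Simp BB 1} (P : FullLift σ) : cc σ = P.L (vtx 1) + P.L (vtx 0) := by
  obtain ⟨m, hm⟩ := P.compare (exists_fullLift σ).some
  unfold cc
  rw [hm, hm]
  have h2 : m + m = 0 := CharTwo.add_self_eq_zero m
  linear_combination h2

theorem cc_sub {n : ℕ} {σ : Simp BB n} (P : FullLift σ) (f : Fin (1 + 1) → Fin (n + 1)) :
    cc (σ.sub f) = P.L (vtx (f 1)) + P.L (vtx (f 0)) := by
  rw [cc_eq (P.sub f)]
  change P.L (simplexMap f (vtx 1)) + P.L (simplexMap f (vtx 0)) = _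
  rw [simplexMap_vtx, simplexMap_vtx]

theorem cc_cocycle : IsCocycle cc := by
  unfold IsCocycle
  ext σ
  obtain ⟨P⟩ := exists_fullLift σ
  change ∑ i : Fin 3, cc (σ.sub (Fin.succAbove i)) = 0
  rw [Fin.sum_univ_three, cc_sub P, cc_sub P, cc_sub P]
  have e00 : (0 : Fin 3).succAbove (0 : Fin 2) = 1 := rfl
  have e01 : (0 : Fin 3).succAbove (1 : Fin 2) = 2 := rfl
  have e10 : (1 : Fin 3).succAbove (0 : Fin 2) = 0 := rfl
  have e11 : (1 : Fin 3).succAbove (1 : Fin 2) = 2 := rfl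
  have e20 : (2 : Fin 3).succAbove (0 : Fin 2) = 0 := rfl
  have e21 : (2 : Fin 3).succAbove (1 : Fin 2) = 1 := rfl
  rw [e00, e01, e10, e11, e20, e21]
  have h0 : P.L (vtx 0) + P.L (vtx 0) = 0 := CharTwo.add_self_eq_zero _
  have h1 : P.L (vtx 1) + P.L (vtx 1) = 0 := CharTwo.add_self_eq_zero _
  have h2 : P.L (vtx 2) + P.L (vtx 2) = 0 := CharTwo.add_self_eq_zero _
  linear_combination h0 + h1 + h2

theorem cc_diag : pullback (diag GG EE XX) cc = 0 := by
  ext σ
  obtain ⟨F, hF⟩ := exists_lift isEG continuous_smul_XX σ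
  let P : FullLift ((diag GG EE XX).comp σ) :=
    { F := ⟨fun v => ((F v).1, ((F v).2, (F v).2)), by
        have := F.continuous
        fun_prop⟩
      θ := ⟨fun _ => 0, continuous_const⟩
      hF := by
        intro v
        change _ = diag GG EE XX (σ v)
        rw [← hF v]
        rfl
      hθ := by
        intro v
        change ((0 : ℝ) : UnitAddCircle) = ang (F v).2 - ang (F v).2
        rw [sub_self, AddCircle.coe_zero] }
  change cc ((diag GG EE XX).comp σ) = 0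
  rw [cc_eq P]
  change eps 0 _ + eps 0 _ = 0
  rw [eps_zero, eps_zero, add_zero]

theorem cc_inKer : InKer GG EE XX cc := by
  refine ⟨cc_cocycle, ?_⟩
  rw [cc_diag]
  refine ⟨0, ?_⟩
  ext σ
  change ∑ i : Fin 2, (0 : ZMod 2) = 0
  simp

end Pool.Agent.R795.BC
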