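import Mathlib

/-!
# Singular cochains modulo 2, Borel cohomology and topological complexity
-/

set_option autoImplicit false

namespace Pool.Agent.R795.BC

/-- The singular `n`-simplices of `Y`: continuous maps from the standard `n`-simplex to `Y`. -/
abbrev Simp (Y : Type) [TopologicalSpace Y] (n : ℕ) : Type := C(stdSimplex ℝ (Fin (n + 1)), Y)

/-- The affine map from the standard `m`-simplex to the standard `n`-simplex which sends the
vertex `i` to the vertex `f i`. -/
noncomputable def simplexMap {m n : ℕ} (f : Fin (m + 1) → Fin (n + 1)) :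
    C(stdSimplex ℝ (Fin (m + 1)), stdSimplex ℝ (Fin (n + 1))) :=
  ⟨stdSimplex.map f, stdSimplex.continuous_map f⟩

/-- The `m`-simplex of `Y` spanned by the vertices `f 0, …, f m` of `σ`. -/
noncomputable def Simp.sub {Y : Type} [TopologicalSpace Y] {m n : ℕ} (σ : Simp Y n)
    (f : Fin (m + 1) → Fin (n + 1)) : Simp Y m := σ.comp (simplexMap f)

/-- Singular `n`-cochains with coefficients in the field with two elements. -/
abbrev Cochain (Y : Type) [TopologicalSpace Y] (n : ℕ) : Type := Simp Y n → ZMod 2

section

variable {Y Z : Type} [TopologicalSpace Y] [TopologicalSpace Z]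

/-- The coboundary: `(δ c)(σ)` is the sum of the values of `c` on the faces of `σ`. -/
noncomputable def delta {n : ℕ} (c : Cochain Y n) : Cochain Y (n + 1) :=
  fun σ => ∑ i : Fin (n + 2), c (σ.sub (Fin.succAbove i))

/-- The cup product: `(a ∪ b)(σ)` is the product of the value of `a` on the front `p`-face and of
the value of `b` on the back `q`-face of `σ`. -/
noncomputable def cup {p q : ℕ} (a : Cochain Y p) (b : Cochain Y q) : Cochain Y (p + q) :=
  fun σ => a (σ.sub fun i : Fin (p + 1) => ⟨i, by omega⟩) *
    b (σ.sub fun i : Fin (q + 1) => ⟨p + i, by omega⟩)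

/-- The pullback of a cochain along a continuous map. -/
def pullback {n : ℕ} (f : C(Y, Z)) (c : Cochain Z n) : Cochain Y n := fun σ => c (f.comp σ)

/-- `c` is a cocycle. -/
def IsCocycle {n : ℕ} (c : Cochain Y n) : Prop := delta c = 0

/-- `c` is a coboundary. -/
def IsCoboundary : {n : ℕ} → Cochain Y n → Prop
  | 0, c => c = 0
  | _ + 1, c => ∃ b, delta b = c

end

/-- The homotopy orbit space `E ×_G Y`; if `E` is a contractible space with a free action of `G`
(as in `IsEG`), this is the Borel construction `EG ×_G Y`. -/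
abbrev HOrb (G E Y : Type) [Group G] [MulAction G E] [MulAction G Y] : Type :=
  Quotient (MulAction.orbitRel G (E × Y))

/-- `E` is a model of `EG` (for the discrete group `G`): a contractible space on which `G` acts by
homeomorphisms in such a way that every point has a neighbourhood `U` with `g U ∩ U = ∅` for
all `g ≠ 1`. -/
def IsEG (G E : Type) [Group G] [TopologicalSpace E] [MulAction G E] : Prop :=
  ContractibleSpace E ∧ (∀ g : G, Continuous fun e : E => g • e) ∧
    ∀ e : E, ∃ U : Set E, IsOpen U ∧ e ∈ U ∧ ∀ g : G, g ≠ 1 → ∀ u ∈ U, g • u ∉ U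

/-- The map `E ×_G Y → E ×_G (Y × Y)` induced by the diagonal map of `Y`. -/
def diag (G E Y : Type) [Group G] [TopologicalSpace E] [TopologicalSpace Y] [MulAction G E]
    [MulAction G Y] : C(HOrb G E Y, HOrb G E (Y × Y)) where
  toFun := Quotient.map' (fun u => (u.1, (u.2, u.2))) (by
    rintro _ u ⟨g, rfl⟩
    exact ⟨g, rfl⟩)
  continuous_toFun := Continuous.quotient_map' (by fun_prop) _

/-- `c` represents a class in the kernel `I_h(Y)` of the homomorphism from `h^n_G(Y × Y)` to
`h^n_G(Y)` induced by the diagonal map, where `h_G` is Borel cohomology with coefficients in the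
field with two elements, that is, `h^n_G(Y)` is the singular cohomology of `E ×_G Y`. -/
def InKer (G E Y : Type) [Group G] [TopologicalSpace E] [TopologicalSpace Y] [MulAction G E]
    [MulAction G Y] {n : ℕ} (c : Cochain (HOrb G E (Y × Y)) n) : Prop :=
  IsCocycle c ∧ IsCoboundary (pullback (diag G E Y) c)

/-- `TC(Y) ≤ k`: the space `Y × Y` is covered by `k + 1` open sets which admit a continuous
section of the evaluation map from the path space `C([0, 1], Y)` to `Y × Y`. -/
def TCLe (Y : Type) [TopologicalSpace Y] (k : ℕ) : Prop :=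
  ∃ U : Fin (k + 1) → Set (Y × Y), (∀ i, IsOpen (U i)) ∧ (∀ x, ∃ i, x ∈ U i) ∧
    ∀ i, ∃ s : C(U i, C(unitInterval, Y)), ∀ x : U i, s x 0 = x.1.1 ∧ s x 1 = x.1.2

end Pool.Agent.R795.BC
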