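import Pool.Agent.R795.BC.Defs

/-!
# Lifting singular simplices of homotopy orbit spaces
-/

set_option autoImplicit false

namespace Pool.Agent.R795.BC

open Topology

instance (n : ℕ) : ContractibleSpace (stdSimplex ℝ (Fin (n + 1))) :=
  (convex_stdSimplex ℝ (Fin (n + 1))).contractibleSpace ⟨_, single_mem_stdSimplex ℝ 0⟩

instance (n : ℕ) : LocallyPathConnectedSpace (stdSimplex ℝ (Fin (n + 1))) :=
  (convex_stdSimplex ℝ (Fin (n + 1))).locallyPathConnectedSpace

instance (n : ℕ) : SimplyConnectedSpace (stdSimplex ℝ (Fin (n + 1))) := inferInstance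

/-- The `i`-th vertex. -/
noncomputable abbrev vtx {n : ℕ} (i : Fin (n + 1)) : stdSimplex ℝ (Fin (n + 1)) :=
  stdSimplex.vertex i

theorem simplexMap_vtx {m n : ℕ} (f : Fin (m + 1) → Fin (n + 1)) (i : Fin (m + 1)) :
    simplexMap f (vtx i) = vtx (f i) := stdSimplex.map_vertex f i

section

variable {G E Y : Type} [Group G] [TopologicalSpace E] [TopologicalSpace Y] [MulAction G E]
  [MulAction G Y]

/-- The quotient map. -/
def quo (G E Y : Type) [Group G] [MulAction G E] [MulAction G Y] (u : E × Y) : HOrb G E Y :=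
  Quotient.mk (MulAction.orbitRel G (E × Y)) u

omit [TopologicalSpace E] [TopologicalSpace Y] in
theorem quo_eq_iff {u v : E × Y} : quo G E Y u = quo G E Y v ↔ ∃ g : G, g • v = u := by
  unfold quo
  rw [Quotient.eq]
  exact MulAction.orbitRel_apply

theorem isQuotientCoveringMap (hE : IsEG G E) (hY : ∀ g : G, Continuous fun y : Y => g • y) :
    IsQuotientCoveringMap (quo G E Y) G where
  toIsQuotientMap := isQuotientMap_quotient_mk'
  continuous_const_smul g :=
    ((hE.2.1 g).comp continuous_fst).prodMk ((hY g).comp continuous_snd)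
  apply_eq_iff_mem_orbit := quo_eq_iff
  disjoint e := by
    obtain ⟨U, hU, he, h⟩ := hE.2.2 e.1
    refine ⟨U ×ˢ Set.univ, (hU.prod isOpen_univ).mem_nhds ⟨he, Set.mem_univ _⟩, ?_⟩
    rintro g ⟨_, ⟨u, hu, rfl⟩, hgu⟩
    by_contra hg
    exact h g hg u.1 hu.1 hgu.1

theorem exists_lift (hE : IsEG G E) (hY : ∀ g : G, Continuous fun y : Y => g • y) {n : ℕ}
    (σ : Simp (HOrb G E Y) n) : ∃ F : Simp (E × Y) n, ∀ v, quo G E Y (F v) = σ v := by
  have hc := (isQuotientCoveringMap hE hY).isCoveringMap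
  obtain ⟨e, he⟩ := (isQuotientCoveringMap hE hY).surjective (σ (vtx 0))
  obtain ⟨F, ⟨-, hF⟩, -⟩ := hc.existsUnique_continuousMap_lifts σ (vtx 0) e he
  exact ⟨F, fun v => congrFun hF v⟩

theorem lift_unique (hE : IsEG G E) (hY : ∀ g : G, Continuous fun y : Y => g • y) {n : ℕ}
    (F F' : Simp (E × Y) n) (h : ∀ v, quo G E Y (F' v) = quo G E Y (F v)) :
    ∃ g : G, ∀ v, F' v = g • F v := by
  have hc := (isQuotientCoveringMap hE hY).isCoveringMap
  obtain ⟨g, hg⟩ := quo_eq_iff.1 (h (vtx 0))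
  refine ⟨g, fun v => ?_⟩
  have hcont : Continuous fun v => g • F v :=
    (((hE.2.1 g).comp continuous_fst).prodMk ((hY g).comp continuous_snd)).comp F.continuous
  have key := hc.eq_of_comp_eq F'.continuous hcont (by
    ext v
    change quo G E Y (F' v) = quo G E Y (g • F v)
    rw [h v, quo_eq_iff]
    exact ⟨g⁻¹, by rw [inv_smul_smul]⟩) (vtx 0) hg.symm
  exact congrFun key v

end

end Pool.Agent.R795.BC
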