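import Pool.Agent.R795.BC.Cocycle

/-!
# The square of the cocycle is not a coboundary
-/

set_option autoImplicit false

namespace Pool.Agent.R795.BC

open Topology

/-- The affine function on the standard simplex with given values at the vertices. -/
noncomputable def lin {n : ℕ} (a : Fin (n + 1) → ℝ) : C(stdSimplex ℝ (Fin (n + 1)), ℝ) :=
  ⟨fun v => ∑ i, (v : Fin (n + 1) → ℝ) i * a i, continuous_finsetSum _ fun i _ =>
    ((continuous_apply i).comp continuous_subtype_val).mul continuous_const⟩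

theorem lin_apply {n : ℕ} (a : Fin (n + 1) → ℝ) (v : stdSimplex ℝ (Fin (n + 1))) :
    lin a v = ∑ i, (v : Fin (n + 1) → ℝ) i * a i := rfl

theorem lin_vtx {n : ℕ} (a : Fin (n + 1) → ℝ) (i : Fin (n + 1)) : lin a (vtx i) = a i := by
  rw [lin_apply]
  change ∑ j, (Pi.single i 1 : Fin (n + 1) → ℝ) j * a j = a i
  rw [Finset.sum_eq_single i]
  · simp
  · intro j _ hj
    simp [Pi.single_eq_of_ne hj]
  · intro h
    exact absurd (Finset.mem_univ i) h

theorem lin_simplexMap {m n : ℕ} (a : Fin (n + 1) → ℝ) (f : Fin (m + 1) → Fin (n + 1))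
    (v : stdSimplex ℝ (Fin (m + 1))) : lin a (simplexMap f v) = lin (a ∘ f) v := by
  rw [lin_apply, lin_apply]
  change ∑ i, (FunOnFinite.linearMap ℝ ℝ f (v : Fin (m + 1) → ℝ)) i * a i = _
  simp only [FunOnFinite.linearMap_apply_apply, Finset.sum_mul, Function.comp_apply]
  rw [← Finset.sum_fiberwise Finset.univ f (fun j => (v : Fin (m + 1) → ℝ) j * a (f j))]
  apply Finset.sum_congr rfl
  intro i _
  apply Finset.sum_congr rfl
  intro j hj
  rw [(Finset.mem_filter.1 hj).2]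

/-- The map from the plane to `EE × XX × XX`. -/
noncomputable def KK (θ t : ℝ) : EE × (XX × XX) := (t, (pt θ t, pt 0 t))

theorem continuous_KK : Continuous fun u : ℝ × ℝ => KK u.1 u.2 := by
  have h1 : Continuous fun u : ℝ × ℝ => pt (u.1 : UnitAddCircle) u.2 :=
    continuous_pt.comp (((AddCircle.continuous_mk' (1 : ℝ)).comp continuous_fst).prodMk
      continuous_snd)
  have h2 : Continuous fun u : ℝ × ℝ => pt 0 u.2 :=
    continuous_pt.comp (continuous_const.prodMk continuous_snd)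
  have h3 : Continuous fun u : ℝ × ℝ => (u.2 : EE) := continuous_snd
  exact h3.prodMk (h1.prodMk h2)

/-- The lift of the singular simplex with given coordinates of the vertices. -/
noncomputable def SS' {n : ℕ} (a b : Fin (n + 1) → ℝ) : Simp (EE × (XX × XX)) n :=
  ⟨fun v => KK (lin a v) (lin b v),
    continuous_KK.comp ((lin a).continuous.prodMk (lin b).continuous)⟩

theorem continuous_quo : Continuous (quo GG EE (XX × XX)) := continuous_quotient_mk'

/-- The singular simplex of `BB` with given coordinates of the vertices. -/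
noncomputable def SS {n : ℕ} (a b : Fin (n + 1) → ℝ) : Simp BB n :=
  ⟨fun v => quo GG EE (XX × XX) (KK (lin a v) (lin b v)),
    continuous_quo.comp (SS' a b).continuous⟩

theorem SS_sub {m n : ℕ} (a b : Fin (n + 1) → ℝ) (f : Fin (m + 1) → Fin (n + 1)) :
    (SS a b).sub f = SS (a ∘ f) (b ∘ f) := by
  ext v
  change quo GG EE (XX × XX) (KK (lin a (simplexMap f v)) (lin b (simplexMap f v))) =
    quo GG EE (XX × XX) (KK (lin (a ∘ f) v) (lin (b ∘ f) v))
  rw [lin_simplexMap, lin_simplexMap]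

/-- The lift of `SS a b`. -/
noncomputable def SSlift {n : ℕ} (a b : Fin (n + 1) → ℝ) : FullLift (SS a b) where
  F := SS' a b
  θ := lin a
  hF _ := rfl
  hθ v := (sub_zero ((lin a v : ℝ) : UnitAddCircle)).symm

theorem SSlift_L {n : ℕ} (a b : Fin (n + 1) → ℝ) (i : Fin (n + 1)) :
    (SSlift a b).L (vtx i) = eps (a i) (b i) := by
  change eps (lin a (vtx i)) (lin b (vtx i)) = _
  rw [lin_vtx, lin_vtx]

theorem lin_two (a : Fin (1 + 1) → ℝ) (v : stdSimplex ℝ (Fin (1 + 1))) :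
    lin a v = (1 - (v : Fin (1 + 1) → ℝ) 1) * a 0 + (v : Fin (1 + 1) → ℝ) 1 * a 1 := by
  rw [lin_apply]
  have h : (v : Fin (1 + 1) → ℝ) 0 + (v : Fin (1 + 1) → ℝ) 1 = 1 := by
    have := v.2.2
    rwa [Fin.sum_univ_two] at this
  rw [Fin.sum_univ_two]
  linear_combination (a 0) * h

theorem coe_one : ((1 : ℝ) : UnitAddCircle) = 0 := AddCircle.coe_period 1

/-- The sides `B C` and `A D` of the square are identified. -/
theorem side_one : SS ![1, 1] ![0, 1] = SS ![0, 0] ![0, 1] := by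
  ext v
  change quo GG EE (XX × XX) (KK (lin ![1, 1] v) (lin ![0, 1] v)) =
    quo GG EE (XX × XX) (KK (lin ![0, 0] v) (lin ![0, 1] v))
  have h1 : lin ![1, 1] v = 1 := by
    rw [lin_two]
    simp
  have h2 : lin ![0, 0] v = 0 := by
    rw [lin_two]
    simp
  rw [h1, h2]
  unfold KK
  rw [coe_one, AddCircle.coe_zero]

/-- The sides `A B` and `C D` of the square are identified. -/
theorem side_two : SS ![0, 1] ![0, 0] = SS ![1, 0] ![1, 1] := by
  ext v
  change quo GG EE (XX × XX) (KK (lin ![0, 1] v) (lin ![0, 0] v)) =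
    quo GG EE (XX × XX) (KK (lin ![1, 0] v) (lin ![1, 1] v))
  have h1 : lin ![0, 1] v = (v : Fin (1 + 1) → ℝ) 1 := by
    rw [lin_two]
    simp
  have h2 : lin ![0, 0] v = 0 := by
    rw [lin_two]
    simp
  have h3 : lin ![1, 0] v = 1 - (v : Fin (1 + 1) → ℝ) 1 := by
    rw [lin_two]
    simp
  have h4 : lin ![1, 1] v = 1 := by
    rw [lin_two]
    simp
  rw [h1, h2, h3, h4]
  symm
  rw [quo_eq_iff]
  refine ⟨Multiplicative.ofAdd 1, ?_⟩
  have hs : sgn 1 = -1 := by
    simp [sgn]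
  apply Prod.ext
  · change (0 : ℝ) + ((1 : ℤ) : ℝ) = 1
    simp
  · apply Prod.ext
    · apply XX_ext
      · change sgn 1 • (((v : Fin (1 + 1) → ℝ) 1 : ℝ) : UnitAddCircle) =
          ((1 - (v : Fin (1 + 1) → ℝ) 1 : ℝ) : UnitAddCircle)
        rw [hs, AddCircle.coe_sub, coe_one]
        simp
      · change (0 : ℝ) + ((1 : ℤ) : ℝ) = 1
        simp
    · apply XX_ext
      · change sgn 1 • (0 : UnitAddCircle) = 0
        simp
      · change (0 : ℝ) + ((1 : ℤ) : ℝ) = 1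
        simp

theorem eps_one_zero : eps 1 0 = 1 := by
  simp [eps, sgn_zero]

theorem eps_one_one : eps 1 1 = 1 := by
  have hs : sgn 1 = -1 := by
    simp [sgn]
  unfold eps
  rw [Int.floor_one, hs]
  have h : ⌊((-1 : ℤ) : ℝ) * 1⌋ = -1 := by
    rw [mul_one, Int.floor_intCast]
  rw [h]
  decide

theorem cup_SS (a b : Fin (2 + 1) → ℝ) :
    cup (p := 1) (q := 1) cc cc (SS a b) = (eps (a 1) (b 1) + eps (a 0) (b 0)) *
      (eps (a 2) (b 2) + eps (a 1) (b 1)) := by
  unfold cup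
  rw [cc_sub (SSlift a b), cc_sub (SSlift a b)]
  have e0 : (⟨((0 : Fin (1 + 1)) : ℕ), by omega⟩ : Fin (2 + 1)) = 0 := rfl
  have e1 : (⟨((1 : Fin (1 + 1)) : ℕ), by omega⟩ : Fin (2 + 1)) = 1 := rfl
  have e2 : (⟨1 + ((0 : Fin (1 + 1)) : ℕ), by omega⟩ : Fin (2 + 1)) = 1 := rfl
  have e3 : (⟨1 + ((1 : Fin (1 + 1)) : ℕ), by omega⟩ : Fin (2 + 1)) = 2 := rfl
  rw [e0, e1, e2, e3, SSlift_L, SSlift_L, SSlift_L]

theorem delta_SS (c : Cochain BB 1) (a b : Fin (2 + 1) → ℝ) :
    delta c (SS a b) = c (SS ![a 1, a 2] ![b 1, b 2]) + c (SS ![a 0, a 2] ![b 0, b 2]) +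
      c (SS ![a 0, a 1] ![b 0, b 1]) := by
  change ∑ i : Fin 3, c ((SS a b).sub (Fin.succAbove i)) = _
  rw [Fin.sum_univ_three, SS_sub, SS_sub, SS_sub]
  have h : ∀ (x : Fin (2 + 1) → ℝ), x ∘ (0 : Fin 3).succAbove = ![x 1, x 2] ∧
      x ∘ (1 : Fin 3).succAbove = ![x 0, x 2] ∧ x ∘ (2 : Fin 3).succAbove = ![x 0, x 1] := by
    intro x
    refine ⟨?_, ?_, ?_⟩ <;>
    · funext i
      fin_cases i <;> rfl
  rw [(h a).1, (h b).1, (h a).2.1, (h b).2.1, (h a).2.2, (h b).2.2]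

theorem not_isCoboundary : ¬ IsCoboundary (cup (p := 1) (q := 1) cc cc) := by
  rintro ⟨c, hc⟩
  have h1 := congrFun hc (SS ![0, 1, 1] ![0, 0, 1])
  have h2 := congrFun hc (SS ![0, 1, 0] ![0, 1, 1])
  rw [delta_SS, cup_SS] at h1 h2
  have h1' : c (SS ![1, 1] ![0, 1]) + c (SS ![0, 1] ![0, 1]) + c (SS ![0, 1] ![0, 0]) =
    (eps 1 0 + eps 0 0) * (eps 1 1 + eps 1 0) := h1
  have h2' : c (SS ![1, 0] ![1, 1]) + c (SS ![0, 0] ![0, 1]) + c (SS ![0, 1] ![0, 1]) =
    (eps 1 1 + eps 0 0) * (eps 0 1 + eps 1 1) := h2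
  simp only [eps_one_zero, eps_one_one, eps_zero] at h1' h2'
  rw [side_one, side_two] at h1'
  have h3 := CharTwo.add_self_eq_zero (c (SS ![0, 0] ![0, 1]))
  have h4 := CharTwo.add_self_eq_zero (c (SS ![0, 1] ![0, 1]))
  have h5 := CharTwo.add_self_eq_zero (c (SS ![1, 0] ![1, 1]))
  have h6 : (1 : ZMod 2) = 0 := by
    have h7 : (1 : ZMod 2) + 1 = 0 := by decide
    linear_combination h3 + h4 + h5 - h1' - h2' - h7
  exact absurd h6 (by decide)

end Pool.Agent.R795.BC
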