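import Pool.Agent.R795.BC.Cocycle

/-!
# The topological complexity of the fixed point sets
-/

set_option autoImplicit false

namespace Pool.Agent.R795.BC

open Topology

theorem TCLe.of_homeomorph {Y Z : Type} [TopologicalSpace Y] [TopologicalSpace Z] {k : ℕ}
    (e : Y ≃ₜ Z) (h : TCLe Y k) : TCLe Z k := by
  obtain ⟨U, hU, hcov, hs⟩ := h
  let E : C(Z × Z, Y × Y) := ⟨fun p => (e.symm p.1, e.symm p.2), by fun_prop⟩
  refine ⟨fun i => E ⁻¹' U i, fun i => (hU i).preimage E.continuous, fun x => hcov (E x),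
    fun i => ?_⟩
  obtain ⟨s, hs⟩ := hs i
  let r : C(E ⁻¹' U i, U i) := ⟨fun x => ⟨E x.1, x.2⟩, by
    exact (E.continuous.comp continuous_subtype_val).subtype_mk _⟩
  let c : C(C(unitInterval, Y), C(unitInterval, Z)) :=
    ⟨fun γ => (e : C(Y, Z)).comp γ, ContinuousMap.continuous_postcomp _⟩
  refine ⟨c.comp (s.comp r), fun x => ?_⟩
  have h1 := hs (r x)
  constructor
  · change e (s (r x) 0) = x.1.1
    rw [h1.1]
    exact e.apply_symm_apply _
  · change e (s (r x) 1) = x.1.2
    rw [h1.2]
    exact e.apply_symm_apply _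

theorem TCLe.of_isEmpty {Y : Type} [TopologicalSpace Y] (h : IsEmpty Y) (k : ℕ) : TCLe Y k := by
  refine ⟨fun _ => Set.univ, fun _ => isOpen_univ, fun x => (h.false x.1).elim, fun i => ?_⟩
  refine ⟨⟨fun x => (h.false x.1.1).elim, ?_⟩, fun x => (h.false x.1.1).elim⟩
  rw [continuous_iff_continuousAt]
  exact fun x => (h.false x.1.1).elim

/-- The pairs whose difference of angles is not `a`. -/
def UU (a : ℝ) : Set (XX × XX) := {p | ang p.2 - ang p.1 ≠ (a : UnitAddCircle)}

theorem isOpen_UU (a : ℝ) : IsOpen (UU a) := by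
  have h1 : Continuous fun p : XX × XX => ang p.2 - ang p.1 :=
    (continuous_ang.comp continuous_snd).sub (continuous_ang.comp continuous_fst)
  exact isOpen_ne.preimage h1

/-- The difference of the angles, as a real number between `a` and `a + 1`. -/
noncomputable def lam (a : ℝ) (p : UU a) : ℝ :=
  (AddCircle.equivIco 1 a (ang p.1.2 - ang p.1.1) : ℝ)

theorem continuous_lam (a : ℝ) : Continuous (lam a) := by
  rw [continuous_iff_continuousAt]
  intro p
  have h1 : Continuous fun p : UU a => ang p.1.2 - ang p.1.1 :=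
    (continuous_ang.comp (continuous_snd.comp continuous_subtype_val)).sub
      (continuous_ang.comp (continuous_fst.comp continuous_subtype_val))
  have h2 : ContinuousAt (AddCircle.equivIco 1 a) (ang p.1.2 - ang p.1.1) :=
    AddCircle.continuousAt_equivIco 1 a p.2
  have h3 : ContinuousAt (fun w : UnitAddCircle => ((AddCircle.equivIco 1 a w : ℝ)))
      (ang p.1.2 - ang p.1.1) := continuous_subtype_val.continuousAt.comp h2
  exact ContinuousAt.comp (f := fun p : UU a => ang p.1.2 - ang p.1.1) h3 h1.continuousAt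

theorem coe_lam (a : ℝ) (p : UU a) : ((lam a p : ℝ) : UnitAddCircle) = ang p.1.2 - ang p.1.1 :=
  AddCircle.coe_equivIco

/-- The motion planner on `UU a`. -/
noncomputable def planner (a : ℝ) : C(UU a × unitInterval, XX) :=
  ⟨fun u => pt (ang u.1.1.1 + (((u.2 : ℝ) * lam a u.1 : ℝ) : UnitAddCircle))
    (ht u.1.1.1 + (u.2 : ℝ) * (ht u.1.1.2 - ht u.1.1.1)), by
    have h0 : Continuous fun u : UU a × unitInterval => (u.2 : ℝ) :=
      continuous_subtype_val.comp continuous_snd
    have h1 : Continuous fun u : UU a × unitInterval => lam a u.1 :=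
      (continuous_lam a).comp continuous_fst
    have h2 : Continuous fun u : UU a × unitInterval => u.1.1.1 :=
      continuous_fst.comp (continuous_subtype_val.comp continuous_fst)
    have h3 : Continuous fun u : UU a × unitInterval => u.1.1.2 :=
      continuous_snd.comp (continuous_subtype_val.comp continuous_fst)
    have h4 : Continuous fun u : UU a × unitInterval =>
        (((u.2 : ℝ) * lam a u.1 : ℝ) : UnitAddCircle) :=
      (AddCircle.continuous_mk' (1 : ℝ)).comp (h0.mul h1)
    exact continuous_pt.comp (((continuous_ang.comp h2).add h4).prodMk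
      ((continuous_ht.comp h2).add (h0.mul ((continuous_ht.comp h3).sub
        (continuous_ht.comp h2)))))⟩

theorem tcLe_XX : TCLe XX 1 := by
  refine ⟨fun i => UU (![0, 1 / 2] i), fun i => isOpen_UU _, fun x => ?_, fun i => ?_⟩
  · by_cases h : ang x.2 - ang x.1 = ((0 : ℝ) : UnitAddCircle)
    · refine ⟨1, ?_⟩
      change ang x.2 - ang x.1 ≠ ((1 / 2 : ℝ) : UnitAddCircle)
      rw [h]
      intro h2
      rw [AddCircle.coe_zero] at h2
      obtain ⟨n, hn⟩ := (AddCircle.coe_eq_zero_iff (1 : ℝ)).1 h2.symm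
      rw [zsmul_eq_mul, mul_one] at hn
      have h3 : (2 : ℝ) * n = 1 := by
        rw [hn]
        norm_num
      have h4 : 2 * n = 1 := by exact_mod_cast h3
      omega
    · exact ⟨0, h⟩
  · refine ⟨(planner _).curry, fun x => ?_⟩
    constructor
    · change pt (ang x.1.1 + (((0 : ℝ) * lam _ x : ℝ) : UnitAddCircle))
        (ht x.1.1 + (0 : ℝ) * (ht x.1.2 - ht x.1.1)) = x.1.1
      rw [zero_mul, zero_mul, AddCircle.coe_zero, add_zero, add_zero]
      rfl
    · change pt (ang x.1.1 + (((1 : ℝ) * lam _ x : ℝ) : UnitAddCircle))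
        (ht x.1.1 + (1 : ℝ) * (ht x.1.2 - ht x.1.1)) = x.1.2
      rw [one_mul, one_mul, coe_lam, add_sub_cancel, add_sub_cancel]
      rfl

theorem tcLe_fixedPoints (H : Subgroup GG) : TCLe (MulAction.fixedPoints H XX) 1 := by
  by_cases hH : H = ⊥
  · subst hH
    have h1 : MulAction.fixedPoints (⊥ : Subgroup GG) XX = Set.univ := by
      ext x
      simp only [Set.mem_univ, iff_true, MulAction.mem_fixedPoints]
      intro g
      have hg : g = 1 := Subsingleton.elim _ _
      rw [hg, one_smul]
    rw [h1]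
    exact TCLe.of_homeomorph (Homeomorph.Set.univ XX).symm tcLe_XX
  · apply TCLe.of_isEmpty
    refine ⟨fun x => hH ?_⟩
    rw [Subgroup.eq_bot_iff_forall]
    intro g hg
    have h1 : g • (x : XX) = x := x.2 ⟨g, hg⟩
    have h2 : ht (g • (x : XX)) = ht (x : XX) := by rw [h1]
    rw [ht_smul] at h2
    have h3 : ((g.toAdd : ℤ) : ℝ) = 0 := by linarith
    have h4 : (g.toAdd : ℤ) = 0 := by exact_mod_cast h3
    exact Multiplicative.toAdd.injective h4

end Pool.Agent.R795.BC
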